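import Pool.Agent.Work.MP_ae9baf_co.Main
import Mathlib

-- merged part: Pool.Agent.Work.MP_ae9baf_co.Cyc.Hax
section
/-!
Haxell's theorem with deficiency, keeping the exploded edges.
-/

namespace Pool.Agent.Work.MP_ae9baf_co.Cyc

open Classical Pool.Agent.Lib.Haxell

variable {V ι : Type*}

theorem edge_aux [Fintype V] (n : ℕ) : ∀ (I : Finset ι), I.card = n →
    ∀ (m : ℕ) (G : SimpleGraph V), G.edgeSet.ncard = m → ∀ (U : Set V) (σ : V → ι) (a : ι),
    a ∈ I → (¬ ∃ T, IsIT G U σ I T) → (∃ T, IsIT G U σ (I.erase a) T) →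
    ∃ S : Finset ι, S ⊆ I ∧ a ∈ S ∧ ∃ M : Finset (V × V), M.card + 1 ≤ S.card ∧
      (∀ e ∈ M, G.Adj e.1 e.2) ∧ (∀ i ∈ S, i ≠ a → ∃ e ∈ M, σ e.2 = i) ∧
      ∀ x ∈ U, σ x ∈ S → ∃ e ∈ M, G.Adj x e.1 ∨ G.Adj x e.2 := by
  induction n using Nat.strong_induction_on with
  | _ n ihn =>
  intro I hI m
  induction m using Nat.strong_induction_on with
  | _ m ihm =>
  intro G hG U σ a ha hno hT0
  by_cases hne : ∃ u ∈ U, σ u = a
  swap
  · refine ⟨{a}, by simpa using ha, by simp, ∅, by simp, by simp, by simp, fun x hx hxa => ?_⟩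
    exact (hne ⟨x, hx, by simpa using hxa⟩).elim
  obtain ⟨u, huU, hua⟩ := hne
  obtain ⟨T0, h01, h02, h03⟩ := hT0
  have hv : ∃ v ∈ T0, σ v ∈ I.erase a ∧ G.Adj u v := by
    by_contra hc
    push Not at hc
    refine hno ⟨insert u {x ∈ T0 | σ x ∈ I.erase a}, ?_, ?_, ?_⟩
    · rintro x (rfl | hx)
      · exact huU
      · exact h01 hx.1
    · rintro x (rfl | hx) y (rfl | hy)
      · exact G.irrefl
      · exact hc y hy.1 hy.2
      · exact fun h => hc x hx.1 hx.2 h.symm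
      · exact h02 x hx.1 y hy.1
    · intro i hi
      by_cases hia : i = a
      · exact ⟨u, Or.inl rfl, hua.trans hia.symm⟩
      · obtain ⟨x, hx, hxi⟩ := h03 i (Finset.mem_erase.2 ⟨hia, hi⟩)
        exact ⟨x, Or.inr ⟨hx, hxi ▸ Finset.mem_erase.2 ⟨hia, hi⟩⟩, hxi⟩
  obtain ⟨v, hvT, hvI, huv⟩ := hv
  have hvU : v ∈ U := h01 hvT
  set b := σ v with hb
  have hba : b ≠ a := (Finset.mem_erase.1 hvI).1
  have hbI : b ∈ I := (Finset.mem_erase.1 hvI).2
  let G' := G.deleteEdges {s(u, v)}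
  have hG'adj : ∀ x y, G'.Adj x y ↔ G.Adj x y ∧ s(x, y) ≠ s(u, v) := by
    intro x y; simp [G']
  by_cases hIT : ∃ T, IsIT G' U σ I T
  swap
  · have hlt : G'.edgeSet.ncard < m := by
      rw [← hG]
      refine Set.ncard_lt_ncard ⟨fun e he => ?_, fun h => ?_⟩ (Set.toFinite _)
      · simp only [G', SimpleGraph.edgeSet_deleteEdges] at he; exact he.1
      · have : s(u, v) ∈ G'.edgeSet := h huv
        simp [G'] at this
    obtain ⟨S, h1, h2, Z, h3, h5, h6, h4⟩ := ihm _ hlt G' rfl U σ a ha hIT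
      ⟨T0, h01, fun x hx y hy h => h02 x hx y hy ((hG'adj x y).1 h).1, h03⟩
    refine ⟨S, h1, h2, Z, h3, fun e he => ((hG'adj _ _).1 (h5 e he)).1, h6, fun x hx hxS => ?_⟩
    obtain ⟨z, hz, hxz⟩ := h4 x hx hxS
    exact ⟨z, hz, hxz.imp (fun h => ((hG'adj _ _).1 h).1) fun h => ((hG'adj _ _).1 h).1⟩
  obtain ⟨T, h1, h2, h3⟩ := hIT
  have huvT : u ∈ T ∧ v ∈ T := by
    by_contra hc
    refine hno ⟨T, h1, fun x hx y hy hxy => h2 x hx y hy ((hG'adj x y).2 ⟨hxy, fun e => hc ?_⟩), h3⟩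
    rcases Sym2.eq_iff.1 e with ⟨rfl, rfl⟩ | ⟨rfl, rfl⟩
    · exact ⟨hx, hy⟩
    · exact ⟨hy, hx⟩
  let U' : Set V := {x ∈ U | ¬ G.Adj x u ∧ ¬ G.Adj x v}
  let σ' : V → ι := fun x => if σ x = b then a else σ x
  have hcard : (I.erase b).card < n := by
    rw [← hI]; exact Finset.card_erase_lt_of_mem hbI
  refine (ihn _ hcard (I.erase b) rfl _ G rfl U' σ' a
    (Finset.mem_erase.2 ⟨hba.symm, ha⟩) ?_ ?_).elim ?_
  rotate_left 2
  · rintro S ⟨hS1, hS2, Z, hZ1, hZ3, hZ4, hZ2⟩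
    have hbS : b ∉ S := fun h => (Finset.mem_erase.1 (hS1 h)).1 rfl
    refine ⟨insert b S, ?_, Finset.mem_insert_of_mem hS2, insert (u, v) Z, ?_, ?_, ?_, ?_⟩
    · intro i hi
      rcases Finset.mem_insert.1 hi with rfl | hi
      · exact hbI
      · exact (Finset.mem_erase.1 (hS1 hi)).2
    · rw [Finset.card_insert_of_notMem hbS]
      have := Finset.card_insert_le (u, v) Z
      omega
    · intro e he
      rcases Finset.mem_insert.1 he with rfl | he
      · exact huv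
      · exact hZ3 e he
    · intro i hi hia
      rcases Finset.mem_insert.1 hi with rfl | hi
      · exact ⟨(u, v), Finset.mem_insert_self _ _, rfl⟩
      · obtain ⟨e, he, hei⟩ := hZ4 i hi hia
        refine ⟨e, Finset.mem_insert_of_mem he, ?_⟩
        simp only [σ'] at hei
        split_ifs at hei with c
        · exact (hia hei.symm).elim
        · exact hei
    · intro x hx hxS
      by_cases c1 : G.Adj x u
      · exact ⟨(u, v), Finset.mem_insert_self _ _, Or.inl c1⟩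
      by_cases c2 : G.Adj x v
      · exact ⟨(u, v), Finset.mem_insert_self _ _, Or.inr c2⟩
      have : σ' x ∈ S := by
        simp only [σ']
        split_ifs with c
        · exact hS2
        · exact (Finset.mem_insert.1 hxS).resolve_left c
      obtain ⟨z, hz, hxz⟩ := hZ2 x ⟨hx, c1, c2⟩ this
      exact ⟨z, Finset.mem_insert_of_mem hz, hxz⟩
  · rintro ⟨T', g1, g2, g3⟩
    obtain ⟨y, hy, hya⟩ := g3 a (Finset.mem_erase.2 ⟨hba.symm, ha⟩)
    have hoth : ∀ i ∈ I, i ≠ a → i ≠ b → ∃ x ∈ T', σ x = i := by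
      intro i hi h1 h2
      obtain ⟨x, hx, hxi⟩ := g3 i (Finset.mem_erase.2 ⟨h2, hi⟩)
      refine ⟨x, hx, ?_⟩
      simp only [σ'] at hxi
      split_ifs at hxi with c
      · exact (h1 hxi.symm).elim
      · exact hxi
    have hins : ∀ w, w ∈ U → (∀ x ∈ T', ¬ G.Adj x w) →
        (∀ i ∈ I, ∃ x ∈ insert w T', σ x = i) → False := by
      intro w hw hw2 hw3
      refine hno ⟨insert w T', ?_, ?_, hw3⟩
      · rintro x (rfl | hx)
        · exact hw
        · exact (g1 hx).1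
      · rintro x (rfl | hx) z (rfl | hz)
        · exact G.irrefl
        · exact fun h => hw2 z hz h.symm
        · exact hw2 x hx
        · exact g2 x hx z hz
    by_cases c : σ y = b
    · refine hins u huU (fun x hx => (g1 hx).2.1) fun i hi => ?_
      by_cases i1 : i = a
      · exact ⟨u, Or.inl rfl, hua.trans i1.symm⟩
      by_cases i2 : i = b
      · exact ⟨y, Or.inr hy, c.trans i2.symm⟩
      obtain ⟨x, hx, hxi⟩ := hoth i hi i1 i2
      exact ⟨x, Or.inr hx, hxi⟩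
    · have hya' : σ y = a := by simpa only [σ', if_neg c] using hya
      refine hins v hvU (fun x hx => (g1 hx).2.2) fun i hi => ?_
      by_cases i1 : i = a
      · exact ⟨y, Or.inr hy, hya'.trans i1.symm⟩
      by_cases i2 : i = b
      · exact ⟨v, Or.inl rfl, i2.symm⟩
      obtain ⟨x, hx, hxi⟩ := hoth i hi i1 i2
      exact ⟨x, Or.inr hx, hxi⟩
  · refine ⟨{x ∈ T | x ≠ u ∧ x ≠ v}, ?_, ?_, ?_⟩
    · rintro x ⟨hx, hxu, hxv⟩
      refine ⟨h1 hx, fun h => h2 x hx u huvT.1 ((hG'adj x u).2 ⟨h, fun e => ?_⟩),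
        fun h => h2 x hx v huvT.2 ((hG'adj x v).2 ⟨h, fun e => ?_⟩)⟩
      · rcases Sym2.eq_iff.1 e with ⟨h, -⟩ | ⟨h, -⟩
        · exact hxu h
        · exact hxv h
      · rcases Sym2.eq_iff.1 e with ⟨h, -⟩ | ⟨h, -⟩
        · exact hxu h
        · exact hxv h
    · rintro x ⟨hx, hxu, hxv⟩ y ⟨hy, -⟩ hxy
      refine h2 x hx y hy ((hG'adj x y).2 ⟨hxy, fun e => ?_⟩)
      rcases Sym2.eq_iff.1 e with ⟨h, -⟩ | ⟨h, -⟩
      · exact hxu h
      · exact hxv h
    · intro i hi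
      obtain ⟨hia, hi⟩ := Finset.mem_erase.1 hi
      obtain ⟨hib, hi⟩ := Finset.mem_erase.1 hi
      obtain ⟨x, hx, hxi⟩ := h3 i hi
      refine ⟨x, ⟨hx, fun e => hia ?_, fun e => hib ?_⟩, ?_⟩
      · rw [← hxi, e, hua]
      · rw [← hxi, e]
      · simp only [σ']
        rw [if_neg (by rw [hxi]; exact hib), hxi]

/-- A largest set `J` of classes met by an independent set, and a set `B ⊇ K \ J` of classes
dominated by the ends of at most `|B ∩ J|` edges. -/
theorem edge_deficiency [Fintype V] (G : SimpleGraph V) (σ : V → ι) (K : Finset ι) :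
    ∃ J : Finset ι, J ⊆ K ∧ (∃ T, IsIT G Set.univ σ J T) ∧
      ∃ B : Finset ι, B ⊆ K ∧ K \ J ⊆ B ∧ ∃ M : Finset (V × V), M.card ≤ (B ∩ J).card ∧
        (∀ e ∈ M, G.Adj e.1 e.2) ∧ (∀ i ∈ B ∩ J, ∃ e ∈ M, σ e.2 = i) ∧
        ∀ x, σ x ∈ B → ∃ e ∈ M, G.Adj x e.1 ∨ G.Adj x e.2 := by
  obtain ⟨J, hJ, hmax⟩ := Finset.exists_max_image
    (K.powerset.filter fun J => ∃ T, IsIT G Set.univ σ J T) Finset.card
    ⟨∅, by
      simp only [Finset.mem_filter, Finset.mem_powerset, Finset.empty_subset, true_and]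
      exact ⟨∅, by simp, by simp, by simp⟩⟩
  simp only [Finset.mem_filter, Finset.mem_powerset] at hJ hmax
  refine ⟨J, hJ.1, hJ.2, ?_⟩
  by_cases hKJ : K \ J = ∅
  · exact ⟨∅, by simp, by simp [hKJ], ∅, by simp, by simp, by simp, by simp⟩
  obtain ⟨a, ha⟩ := Finset.nonempty_iff_ne_empty.2 hKJ
  obtain ⟨haK, haJ⟩ := Finset.mem_sdiff.1 ha
  let σ' : V → ι := fun x => if σ x ∈ K \ J then a else σ x
  refine (edge_aux _ (insert a J) rfl _ G rfl Set.univ σ' a
    (Finset.mem_insert_self _ _) ?_ ?_).elim ?_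
  rotate_left 2
  · rintro S ⟨hS1, hS2, Z, hZ1, hZ3, hZ4, hZ2⟩
    refine ⟨K \ J ∪ S.erase a, ?_, Finset.subset_union_left, Z, ?_, hZ3, ?_, fun x hx => ?_⟩
    · intro i hi
      rcases Finset.mem_union.1 hi with hi | hi
      · exact (Finset.mem_sdiff.1 hi).1
      · obtain ⟨h1, h2⟩ := Finset.mem_erase.1 hi
        exact hJ.1 ((Finset.mem_insert.1 (hS1 h2)).resolve_left h1)
    · have : S.erase a ⊆ (K \ J ∪ S.erase a) ∩ J := by
        intro i hi
        obtain ⟨h1, h2⟩ := Finset.mem_erase.1 hi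
        exact Finset.mem_inter.2 ⟨Finset.mem_union_right _ hi,
          (Finset.mem_insert.1 (hS1 h2)).resolve_left h1⟩
      have h1 := Finset.card_le_card this
      have h2 := Finset.card_erase_add_one hS2
      omega
    · intro i hi
      obtain ⟨h1, h2⟩ := Finset.mem_inter.1 hi
      have h3 : i ∈ S.erase a :=
        (Finset.mem_union.1 h1).resolve_left fun c => (Finset.mem_sdiff.1 c).2 h2
      obtain ⟨h4, h5⟩ := Finset.mem_erase.1 h3
      obtain ⟨e, he, hei⟩ := hZ4 i h5 h4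
      refine ⟨e, he, ?_⟩
      simp only [σ'] at hei
      split_ifs at hei with c
      · exact (h4 hei.symm).elim
      · exact hei
    · refine hZ2 x trivial ?_
      simp only [σ']
      split_ifs with c
      · exact hS2
      · exact (Finset.mem_erase.1 ((Finset.mem_union.1 hx).resolve_left c)).2
  · rintro ⟨T, h1, h2, h3⟩
    obtain ⟨y, hy, hya⟩ := h3 a (Finset.mem_insert_self _ _)
    have hyK : σ y ∈ K \ J := by
      by_contra c
      simp only [σ', if_neg c] at hya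
      exact c (hya ▸ ha)
    obtain ⟨hy1, hy2⟩ := Finset.mem_sdiff.1 hyK
    have := hmax (insert (σ y) J) ⟨Finset.insert_subset hy1 hJ.1, T, h1, h2, fun i hi => ?_⟩
    · rw [Finset.card_insert_of_notMem hy2] at this; omega
    · rcases Finset.mem_insert.1 hi with rfl | hi
      · exact ⟨y, hy, rfl⟩
      · obtain ⟨x, hx, hxi⟩ := h3 i (Finset.mem_insert_of_mem hi)
        refine ⟨x, hx, ?_⟩
        simp only [σ'] at hxi
        split_ifs at hxi with c
        · exact (haJ (hxi ▸ hi)).elim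
        · exact hxi
  · obtain ⟨T, h1, h2, h3⟩ := hJ.2
    refine ⟨T, h1, h2, fun i hi => ?_⟩
    rw [Finset.erase_insert haJ] at hi
    obtain ⟨x, hx, hxi⟩ := h3 i hi
    refine ⟨x, hx, ?_⟩
    simp only [σ']
    rw [if_neg (by rw [hxi]; simp [hi]), hxi]

end Pool.Agent.Work.MP_ae9baf_co.Cyc
end

-- merged part: Pool.Agent.Work.MP_ae9baf_co.Cyc.Path
section
/-!
Paths as functions on an initial segment of `ℕ`, and cliques in graphs without a cycle of a
given length.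
-/

namespace Pool.Agent.Work.MP_ae9baf_co.Cyc

open Classical

variable {V : Type*} {G : SimpleGraph V}

/-- `f 0, …, f (n-1)` is a path on `n` vertices inside `X`. -/
structure Pth (G : SimpleGraph V) (X : Set V) (n : ℕ) (f : ℕ → V) : Prop where
  mem : ∀ i, i < n → f i ∈ X
  inj : ∀ i j, i < n → j < n → f i = f j → i = j
  adj : ∀ i, i + 1 < n → G.Adj (f i) (f (i + 1))

/-- No cycle on `n` vertices. -/
def NoCyc (G : SimpleGraph V) (n : ℕ) : Prop :=
  ∀ f, Pth G Set.univ n f → ¬ G.Adj (f (n - 1)) (f 0)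

theorem noCyc_of_free {n : ℕ} (h : (SimpleGraph.cycleGraph (n + 2)).Free G) :
    NoCyc G (n + 2) := by
  intro f hf hadj
  refine h ⟨⟨⟨fun i => f i, fun {i j} hij => ?_⟩, fun i j e => Fin.ext (hf.inj _ _ i.2 j.2 e)⟩⟩
  have key : ∀ i j : Fin (n + 2), (i - j).val = 1 → G.Adj (f i) (f j) := by
    intro i j h1
    have hi := i.2
    have hj := j.2
    rw [Fin.val_sub] at h1
    by_cases c : j.val ≤ i.val
    · have e : (n + 2 - j.val + i.val) = (i.val - j.val) + (n + 2) := by omega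
      rw [e, Nat.add_mod_right, Nat.mod_eq_of_lt (by omega)] at h1
      have e2 : i.val = j.val + 1 := by omega
      rw [e2]
      exact (hf.adj _ (by omega)).symm
    · rw [Nat.mod_eq_of_lt (by omega)] at h1
      have e1 : i.val = 0 := by omega
      have e2 : j.val = n + 2 - 1 := by omega
      rw [e1, e2]
      exact hadj.symm
  rcases SimpleGraph.cycleGraph_adj'.1 hij with h1 | h1
  · exact key i j h1
  · exact (key j i h1).symm

namespace Pth

variable {X Y : Set V} {n m : ℕ} {f : ℕ → V}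

theorem sub (h : Pth G X n f) (hXY : X ⊆ Y) : Pth G Y n f :=
  ⟨fun i hi => hXY (h.mem i hi), h.inj, h.adj⟩

theorem short (h : Pth G X n f) (hm : m ≤ n) : Pth G X m f :=
  ⟨fun i hi => h.mem i (by omega), fun i j hi hj => h.inj i j (by omega) (by omega),
    fun i hi => h.adj i (by omega)⟩

theorem tail (h : Pth G X (n + 1) f) : Pth G X n fun j => f (j + 1) :=
  ⟨fun i hi => h.mem _ (by omega), fun i j hi hj e => by
    have := h.inj _ _ (by omega) (by omega) e
    omega, fun i hi => h.adj _ (by omega)⟩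

theorem rev (h : Pth G X n f) : Pth G X n fun j => f (n - 1 - j) := by
  refine ⟨fun i hi => h.mem _ (by omega), fun i j hi hj e => ?_, fun i hi => ?_⟩
  · have := h.inj _ _ (by omega) (by omega) e
    omega
  · have := (h.adj (n - 1 - (i + 1)) (by omega)).symm
    rwa [show n - 1 - (i + 1) + 1 = n - 1 - i by omega] at this

theorem cons (h : Pth G X n f) {z : V} (hz : z ∈ X) (hn : ∀ i, i < n → f i ≠ z)
    (ha : G.Adj z (f 0)) : Pth G X (n + 1) fun j => if j = 0 then z else f (j - 1) := by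
  refine ⟨fun i hi => ?_, fun i j hi hj e => ?_, fun i hi => ?_⟩
  · split_ifs with c
    · exact hz
    · exact h.mem _ (by omega)
  · split_ifs at e with c1 c2 c2
    · omega
    · exact (hn _ (by omega) e.symm).elim
    · exact (hn _ (by omega) e).elim
    · have := h.inj _ _ (by omega) (by omega) e
      omega
  · rw [if_neg (Nat.succ_ne_zero i), Nat.add_sub_cancel]
    split_ifs with c
    · rw [c]; exact ha
    · have := h.adj (i - 1) (by omega)
      rwa [show i - 1 + 1 = i by omega] at this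

theorem rot (h : Pth G X n f) {i : ℕ} (hi : i < n) (ha : G.Adj (f 0) (f i)) :
    Pth G X n fun j => if j < i then f (i - 1 - j) else f j := by
  refine ⟨fun j hj => ?_, fun j k hj hk e => ?_, fun j hj => ?_⟩
  · split_ifs with c
    · exact h.mem _ (by omega)
    · exact h.mem _ hj
  · split_ifs at e with c1 c2 c2 <;>
    · have := h.inj _ _ (by omega) (by omega) e
      omega
  · split_ifs with c1 c2 c2
    · have := (h.adj (i - 1 - (j + 1)) (by omega)).symm
      rwa [show i - 1 - (j + 1) + 1 = i - 1 - j by omega] at this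
    · rw [show i - 1 - j = 0 by omega, show j + 1 = i by omega]
      exact ha
    · omega
    · exact h.adj j hj

end Pth

variable {X : Set V} {n : ℕ} {f : ℕ → V} {u v : V}

theorem p1 (hc : NoCyc G (n + 1)) (hn : 1 ≤ n) (h : Pth G X n f) (hu : u ∉ X)
    (h0 : G.Adj (f 0) u) (h1 : G.Adj (f (n - 1)) u) : False := by
  have h2 := (h.sub (Set.subset_univ _)).cons (z := u) trivial
    (fun i hi e => hu (e ▸ h.mem i hi)) h0.symm
  refine hc _ h2 ?_
  simp only [Nat.add_sub_cancel, if_true]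
  rw [if_neg (by omega)]
  exact h1

theorem p2 (hc : NoCyc G (n + 2)) (hn : 1 ≤ n) (h : Pth G X n f) (hu : u ∉ X) (hv : v ∉ X)
    (huv : G.Adj u v) (h0 : G.Adj (f 0) u) (h1 : G.Adj (f (n - 1)) v) : False := by
  have h2 := (h.sub (Set.subset_insert u X)).cons (z := u) (Or.inl rfl)
    (fun i hi e => hu (e ▸ h.mem i hi)) h0.symm
  refine p1 (u := v) hc (by omega) h2 ?_ ?_ ?_
  · rintro (e | e)
    · exact huv.ne e.symm
    · exact hv e
  · simpa using huv
  · simp only [Nat.add_sub_cancel]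
    rw [if_neg (by omega)]
    exact h1

theorem clique_path {l : ℕ} {Q : Finset V} (hQ : G.IsNClique l Q) {q q' : V} (hq : q ∈ Q)
    (hq' : q' ∈ Q) (hne : q ≠ q') (h2 : 2 ≤ n) (hn : n ≤ l) :
    ∃ f, Pth G (Q : Set V) n f ∧ f 0 = q ∧ f (n - 1) = q' := by
  have key : ∀ m, m + 2 ≤ l → ∃ f, Pth G (Q.erase q : Finset V) (m + 1) f ∧ f m = q' := by
    intro m
    induction m with
    | zero =>
      intro _
      exact ⟨fun _ => q', ⟨fun _ _ => by simp [hq', hne.symm], fun i j hi hj _ => by omega,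
        fun i hi => by omega⟩, rfl⟩
    | succ m ih =>
      intro hm
      obtain ⟨f, hf, hfm⟩ := ih (by omega)
      have hlt : ((Finset.range (m + 1)).image f).card < (Q.erase q).card := by
        have h1 : ((Finset.range (m + 1)).image f).card ≤ (Finset.range (m + 1)).card :=
          Finset.card_image_le
        rw [Finset.card_range] at h1
        rw [Finset.card_erase_of_mem hq, hQ.card_eq]
        omega
      obtain ⟨z, hz1, hz2⟩ := Finset.exists_mem_notMem_of_card_lt_card hlt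
      have hz3 : ∀ i, i < m + 1 → f i ≠ z := fun i hi e =>
        hz2 (Finset.mem_image.2 ⟨i, Finset.mem_range.2 hi, e⟩)
      have h0 : f 0 ∈ Q.erase q := hf.mem 0 (by omega)
      refine ⟨_, hf.cons (z := z) hz1 hz3 (hQ.isClique (Finset.mem_of_mem_erase hz1)
        (Finset.mem_of_mem_erase h0) (hz3 0 (by omega)).symm), ?_⟩
      simpa using hfm
  obtain ⟨m, rfl⟩ : ∃ m, n = m + 2 := ⟨n - 2, by omega⟩
  obtain ⟨f, hf, hfm⟩ := key m hn
  have hq3 : ∀ i, i < m + 1 → f i ≠ q := fun i hi =>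
    (Finset.mem_erase.1 (hf.mem i hi)).1
  have h0 : f 0 ∈ Q.erase q := hf.mem 0 (by omega)
  refine ⟨_, (hf.sub (Y := (Q : Set V)) fun x hx => Finset.mem_of_mem_erase hx).cons (z := q) hq hq3
    (hQ.isClique hq (Finset.mem_of_mem_erase h0) (hq3 0 (by omega)).symm), by simp, ?_⟩
  simpa using hfm

variable {l : ℕ} {Q : Finset V} {q q' x y : V}

theorem f1 (hc : NoCyc G (l + 1)) (hl : 3 ≤ l) (hQ : G.IsNClique l Q) (hx : x ∉ Q) (hq : q ∈ Q)
    (hq' : q' ∈ Q) (hne : q ≠ q') (h0 : G.Adj q x) (h1 : G.Adj q' x) : False := by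
  obtain ⟨f, hf, e0, e1⟩ := clique_path (n := l) hQ hq hq' hne (by omega) le_rfl
  exact p1 hc (by omega) hf hx (e0 ▸ h0) (e1 ▸ h1)

theorem f2 (hc : NoCyc G (l + 1)) (hl : 3 ≤ l) (hQ : G.IsNClique l Q) (hx : x ∉ Q) (hy : y ∉ Q)
    (hxy : G.Adj x y) (hq : q ∈ Q) (hq' : q' ∈ Q) (hne : q ≠ q') (h0 : G.Adj q x)
    (h1 : G.Adj q' y) : False := by
  obtain ⟨f, hf, e0, e1⟩ := clique_path (n := l - 1) hQ hq hq' hne (by omega) (by omega)
  exact p2 (n := l - 1) (by rwa [show l - 1 + 2 = l + 1 by omega]) (by omega) hf hx hy hxy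
    (e0 ▸ h0) (e1 ▸ h1)

theorem f3 (hc : NoCyc G (l + 1)) (hl : 3 ≤ l) (hQ : G.IsNClique l Q) (hxy : G.Adj x y)
    (hq : q ∈ Q) (hq' : q' ∈ Q) (hne : q ≠ q') (h0 : G.Adj q x ∨ G.Adj q y)
    (h1 : G.Adj q' x ∨ G.Adj q' y) : x ∈ Q ∨ y ∈ Q := by
  by_contra hcon
  push Not at hcon
  obtain ⟨hx, hy⟩ := hcon
  rcases h0 with h0 | h0 <;> rcases h1 with h1 | h1
  · exact f1 hc hl hQ hx hq hq' hne h0 h1
  · exact f2 hc hl hQ hx hy hxy hq hq' hne h0 h1
  · exact f2 hc hl hQ hy hx hxy.symm hq hq' hne h0 h1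
  · exact f1 hc hl hQ hy hq hq' hne h0 h1

end Pool.Agent.Work.MP_ae9baf_co.Cyc
end

-- merged part: Pool.Agent.Work.MP_ae9baf_co.Cyc.Core
section
/-!
List colouring of the ball around an edge in a graph without a cycle of length `l + 1`.
-/

namespace Pool.Agent.Work.MP_ae9baf_co.Cyc

open Classical

variable {V : Type*} {G : SimpleGraph V}

/-- Number of neighbours of `x` in `X`. -/
noncomputable def dg (G : SimpleGraph V) (X : Finset V) (x : V) : ℕ := (X.filter (G.Adj x)).card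

theorem exists_out {X : Finset V} (f : ℕ → V) {x : V} (T : Finset ℕ) (hT : T.card < dg G X x) :
    ∃ z ∈ X, G.Adj x z ∧ ∀ i ∈ T, f i ≠ z := by
  have hlt : (T.image f).card < (X.filter (G.Adj x)).card :=
    lt_of_le_of_lt Finset.card_image_le hT
  obtain ⟨z, hz1, hz2⟩ := Finset.exists_mem_notMem_of_card_lt_card hlt
  obtain ⟨h1, h2⟩ := Finset.mem_filter.1 hz1
  exact ⟨z, h1, h2, fun i hi e => hz2 (Finset.mem_image.2 ⟨i, hi, e⟩)⟩

section Longest

variable {X : Finset V} {n : ℕ}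

theorem longest_deg (hno : ¬ ∃ g, Pth G (X : Set V) (n + 1) g) {g : ℕ → V}
    (hg : Pth G (X : Set V) n g) : dg G X (g 0) ≤ n - 1 := by
  by_contra hcon
  obtain ⟨z, hz1, hz2, hz3⟩ := exists_out (G := G) (X := X) (x := g 0) g (Finset.Ico 1 n)
    (by rw [Nat.card_Ico]; omega)
  refine hno ⟨_, hg.cons (z := z) hz1 (fun i hi => ?_) hz2.symm⟩
  by_cases c : i = 0
  · rw [c]; exact hz2.ne
  · exact hz3 i (Finset.mem_Ico.2 ⟨by omega, hi⟩)

theorem longest_adj (hno : ¬ ∃ g, Pth G (X : Set V) (n + 1) g) {g : ℕ → V}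
    (hg : Pth G (X : Set V) n g) (hd : n - 1 ≤ dg G X (g 0)) {i : ℕ} (h1 : 1 ≤ i) (h2 : i < n) :
    G.Adj (g 0) (g i) := by
  obtain ⟨z, hz1, hz2, hz3⟩ := exists_out (G := G) (X := X) (x := g 0) g
    ((Finset.Ico 1 n).erase i) (by
      rw [Finset.card_erase_of_mem (Finset.mem_Ico.2 ⟨h1, h2⟩), Nat.card_Ico]; omega)
  by_contra hcon
  refine hno ⟨_, hg.cons (z := z) hz1 (fun j hj => ?_) hz2.symm⟩
  by_cases c : j = 0
  · rw [c]; exact hz2.ne
  by_cases c2 : j = i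
  · rw [c2]; exact fun e => hcon (e ▸ hz2)
  · exact hz3 j (Finset.mem_erase.2 ⟨c2, Finset.mem_Ico.2 ⟨by omega, hj⟩⟩)

theorem longest_start (hno : ¬ ∃ g, Pth G (X : Set V) (n + 1) g)
    (hd : ∀ g, Pth G (X : Set V) n g → n - 1 ≤ dg G X (g 0)) {f : ℕ → V}
    (hf : Pth G (X : Set V) n f) {i : ℕ} (hi : i < n) :
    ∃ g, Pth G (X : Set V) n g ∧ g 0 = f i ∧ (∀ j, j < n → ∃ j', j' < n ∧ f j = g j') ∧
      (i + 1 < n → g (n - 1) = f (n - 1)) := by
  by_cases c : i + 1 < n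
  · refine ⟨_, hf.rot c (longest_adj hno hf (hd f hf) (by omega) c), by simp, fun j hj => ?_,
      fun _ => ?_⟩
    · by_cases c2 : j < i + 1
      · refine ⟨i - j, by omega, ?_⟩
        rw [if_pos (by omega)]
        congr 1
        omega
      · exact ⟨j, hj, by rw [if_neg c2]⟩
    · rw [if_neg (by omega)]
  · refine ⟨_, hf.rev, ?_, fun j hj => ⟨n - 1 - j, by omega, ?_⟩, fun h => (c h).elim⟩
    · congr 1
      omega
    · congr 1
      omega

theorem longest_clique (hno : ¬ ∃ g, Pth G (X : Set V) (n + 1) g)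
    (hd : ∀ g, Pth G (X : Set V) n g → n - 1 ≤ dg G X (g 0)) {f : ℕ → V}
    (hf : Pth G (X : Set V) n f) : G.IsNClique n ((Finset.range n).image f) := by
  refine ⟨?_, ?_⟩
  · intro x hx y hy hxy
    obtain ⟨i, hi, rfl⟩ := Finset.mem_image.1 hx
    obtain ⟨j, hj, rfl⟩ := Finset.mem_image.1 hy
    obtain ⟨g, hg, e, h3, -⟩ := longest_start hno hd hf (Finset.mem_range.1 hi)
    obtain ⟨j', hj', e'⟩ := h3 j (Finset.mem_range.1 hj)
    rw [← e, e'] at hxy ⊢
    refine longest_adj hno hg (hd g hg) ?_ hj'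
    by_contra c
    exact hxy (by congr 1; omega)
  · rw [Finset.card_image_of_injOn, Finset.card_range]
    intro i hi j hj e
    exact hf.inj i j (by simpa using hi) (by simpa using hj) e

end Longest

/-- `x` and `y` are attached to different ends of the edge `uv`, each to one end only. -/
def Opp (G : SimpleGraph V) (u v x y : V) : Prop :=
  ¬ (G.Adj x u ∧ G.Adj x v) ∧ (G.Adj x u ↔ ¬ G.Adj y u) ∧ ¬ (G.Adj y u ∧ G.Adj y v)

theorem Opp.symm {u v x y : V} (h : Opp G u v x y) : Opp G u v y x := by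
  unfold Opp at h ⊢
  tauto

section Big

variable {X : Finset V} {l : ℕ} {u v : V}

theorem ends_same (hc : NoCyc G (l + 1)) (hl : 3 ≤ l) (huv : G.Adj u v) (hu : u ∉ X) (hv : v ∉ X)
    {f : ℕ → V} (hf : Pth G (X : Set V) (l - 1) f) :
    ¬ (G.Adj (f 0) u ∧ G.Adj (f (l - 2)) v) ∧ ¬ (G.Adj (f 0) v ∧ G.Adj (f (l - 2)) u) := by
  have hc' : NoCyc G (l - 1 + 2) := by rwa [show l - 1 + 2 = l + 1 by omega]
  exact ⟨fun h => p2 hc' (by omega) hf hu hv huv h.1 h.2,
    fun h => p2 hc' (by omega) hf hv hu huv.symm h.1 h.2⟩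

theorem types_aux {a0 b0 a1 b1 a2 b2 a3 b3 : Prop} (h1 : ¬ (a0 ∧ a3)) (h2 : ¬ (b0 ∧ b3))
    (h3 : ¬ (a0 ∧ b2) ∧ ¬ (b0 ∧ a2)) (h4 : ¬ (a1 ∧ b3) ∧ ¬ (b1 ∧ a3)) (c0 : a0 ∨ b0)
    (c1 : a1 ∨ b1) (c2 : a2 ∨ b2) (c3 : a3 ∨ b3) :
    (¬ (a0 ∧ b0) ∧ (a0 ↔ ¬ a3) ∧ ¬ (a3 ∧ b3)) ∧ (¬ (a0 ∧ b0) ∧ (a0 ↔ ¬ a1) ∧ ¬ (a1 ∧ b1)) ∧
      (¬ (a2 ∧ b2) ∧ (a2 ↔ ¬ a3) ∧ ¬ (a3 ∧ b3)) ∧ ¬ (¬ (a1 ∧ b1) ∧ (a1 ↔ ¬ a3) ∧ ¬ (a3 ∧ b3)) ∧
      ¬ (¬ (a0 ∧ b0) ∧ (a0 ↔ ¬ a2) ∧ ¬ (a2 ∧ b2)) := by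
  rcases c0 with c0 | c0
  · have e3 : ¬ a3 := fun h => h1 ⟨c0, h⟩
    have e4 : b3 := c3.resolve_left e3
    have e5 : ¬ b0 := fun h => h2 ⟨h, e4⟩
    have e6 : ¬ b2 := fun h => h3.1 ⟨c0, h⟩
    have e7 : a2 := c2.resolve_right e6
    have e8 : ¬ a1 := fun h => h4.1 ⟨h, e4⟩
    simp [c0, e3, e5, e6, e7, e8]
  · have e3 : ¬ b3 := fun h => h2 ⟨c0, h⟩
    have e4 : a3 := c3.resolve_right e3
    have e5 : ¬ a0 := fun h => h1 ⟨h, e4⟩
    have e6 : ¬ a2 := fun h => h3.2 ⟨c0, h⟩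
    have e8 : ¬ b1 := fun h => h4.2 ⟨h, e4⟩
    have e9 : a1 := c1.resolve_right e8
    simp [e3, e4, e5, e6, e8, e9]

theorem big_types (hc : NoCyc G (l + 1)) (hl : 3 ≤ l) (huv : G.Adj u v) (hu : u ∉ X) (hv : v ∉ X)
    (hX : ∀ x ∈ X, G.Adj x u ∨ G.Adj x v) {f : ℕ → V} (hf : Pth G (X : Set V) l f) :
    Opp G u v (f 0) (f (l - 1)) ∧ Opp G u v (f 0) (f 1) ∧ Opp G u v (f (l - 2)) (f (l - 1)) ∧
      ¬ Opp G u v (f 1) (f (l - 1)) ∧ ¬ Opp G u v (f 0) (f (l - 2)) := by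
  have a1 : ¬ (G.Adj (f 0) u ∧ G.Adj (f (l - 1)) u) := fun h => p1 hc (by omega) hf hu h.1 h.2
  have a2 : ¬ (G.Adj (f 0) v ∧ G.Adj (f (l - 1)) v) := fun h => p1 hc (by omega) hf hv h.1 h.2
  have a3 := ends_same hc hl huv hu hv (hf.short (Nat.sub_le l 1))
  have a4 := ends_same hc hl huv hu hv (f := fun j => f (j + 1))
    (Pth.tail (by rwa [show l - 1 + 1 = l by omega]))
  simp only [zero_add, show l - 2 + 1 = l - 1 by omega] at a4
  have b0 := hX _ (hf.mem 0 (by omega))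
  have b1 := hX _ (hf.mem 1 (by omega))
  have b2 := hX _ (hf.mem (l - 2) (by omega))
  have b3 := hX _ (hf.mem (l - 1) (by omega))
  exact types_aux a1 a2 a3 a4 b0 b1 b2 b3

theorem big_slide (hc : NoCyc G (l + 1)) (hl : 3 ≤ l) (huv : G.Adj u v) (hu : u ∉ X) (hv : v ∉ X)
    (hX : ∀ x ∈ X, G.Adj x u ∨ G.Adj x v)
    (hd : ∀ x ∈ X, ¬ (G.Adj x u ∧ G.Adj x v) → l - 2 ≤ dg G X x)
    {f : ℕ → V} (hf : Pth G (X : Set V) l f) :
    ∃ g, Pth G (X : Set V) l g ∧ ∀ j, g (j + 1) = f j := by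
  obtain ⟨t1, t2, t3, t4, t5⟩ := big_types hc hl huv hu hv hX hf
  have hl4 : 4 ≤ l := by
    by_contra c
    rw [show l - 2 = 1 by omega] at t5
    exact t5 t2
  have hn : ¬ G.Adj (f 0) (f 2) := by
    intro h
    have := (big_types hc hl huv hu hv hX (hf.rot (i := 2) (by omega) h)).1
    rw [if_pos (by omega), if_neg (by omega)] at this
    exact t4 this
  obtain ⟨z, hz1, hz2, hz3⟩ := exists_out (G := G) (X := X) (x := f 0) f
    ((Finset.Ico 1 (l - 1)).erase 2) (by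
      rw [Finset.card_erase_of_mem (Finset.mem_Ico.2 ⟨by omega, by omega⟩), Nat.card_Ico]
      have := hd _ (hf.mem 0 (by omega)) t1.1
      omega)
  have h2 := (hf.short (Nat.sub_le l 1)).cons (z := z) hz1 (fun j hj => ?_) hz2.symm
  · rw [show l - 1 + 1 = l by omega] at h2
    exact ⟨_, h2, fun j => by simp⟩
  by_cases c : j = 0
  · rw [c]; exact hz2.ne
  by_cases c2 : j = 2
  · rw [c2]; exact fun e => hn (e ▸ hz2)
  · exact hz3 j (Finset.mem_erase.2 ⟨c2, Finset.mem_Ico.2 ⟨by omega, hj⟩⟩)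

theorem big_all (hc : NoCyc G (l + 1)) (hl : 3 ≤ l) (huv : G.Adj u v) (hu : u ∉ X) (hv : v ∉ X)
    (hX : ∀ x ∈ X, G.Adj x u ∨ G.Adj x v)
    (hd : ∀ x ∈ X, ¬ (G.Adj x u ∧ G.Adj x v) → l - 2 ≤ dg G X x) (k : ℕ) :
    ∀ f, Pth G (X : Set V) l f → ∀ i, i + k + 1 = l →
      (∃ g, Pth G (X : Set V) l g ∧ g 0 = f i) ∧ (1 ≤ i → Opp G u v (f (i - 1)) (f i)) := by
  induction k with
  | zero =>
    intro f hf i hi
    obtain rfl : i = l - 1 := by omega
    exact ⟨⟨_, hf.rev, rfl⟩, fun _ => (big_types hc hl huv hu hv hX hf).2.2.1⟩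
  | succ k ih =>
    intro f hf i hi
    obtain ⟨g, hg, e⟩ := big_slide hc hl huv hu hv hX hd hf
    obtain ⟨h1, h2⟩ := ih g hg (i + 1) (by omega)
    rw [e] at h1 h2
    refine ⟨h1, fun h => ?_⟩
    have := h2 (by omega)
    rwa [show i + 1 - 1 = i - 1 + 1 by omega, e] at this

theorem big_closed (hc : NoCyc G (l + 1)) (hl : 3 ≤ l) (huv : G.Adj u v) (hu : u ∉ X)
    (hv : v ∉ X) (hX : ∀ x ∈ X, G.Adj x u ∨ G.Adj x v)
    (hd : ∀ x ∈ X, ¬ (G.Adj x u ∧ G.Adj x v) → l - 2 ≤ dg G X x)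
    {f : ℕ → V} (hf : Pth G (X : Set V) l f) {y : V} (hy : y ∈ X) (ha : G.Adj (f 0) y) :
    (∃ g, Pth G (X : Set V) l g ∧ g 0 = y) ∧ Opp G u v (f 0) y := by
  by_cases c : ∃ i, i < l ∧ f i = y
  · obtain ⟨i, hi, rfl⟩ := c
    have hi0 : 1 ≤ i := by
      by_contra c
      exact ha.ne (by congr 1; omega)
    refine ⟨(big_all hc hl huv hu hv hX hd (l - 1 - i) f hf i (by omega)).1, ?_⟩
    have := (big_all hc hl huv hu hv hX hd (l - 1 - i) _ (hf.rot hi ha) i (by omega)).2 hi0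
    rwa [if_pos (by omega), if_neg (by omega), Nat.sub_self] at this
  · push Not at c
    have h2 := (hf.cons (z := y) hy c ha.symm).short (Nat.le_succ l)
    refine ⟨⟨_, h2, by simp⟩, ?_⟩
    have := (big_types hc hl huv hu hv hX h2).2.1
    simpa using this.symm

end Big

/-- The cliques that can obstruct the list colouring. -/
def Obs (G : SimpleGraph V) (u v : V) (L : V → Finset ℕ) (l : ℕ) (X : Finset V) : Prop :=
  ∃ n, ∃ Q ⊆ X, G.IsNClique n Q ∧ (∀ x ∈ Q, (L x).card ≤ n - 1) ∧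
    ((n = l - 1 ∧ ((∀ x ∈ Q, G.Adj x u ∧ ¬ G.Adj x v) ∨ ∀ x ∈ Q, G.Adj x v ∧ ¬ G.Adj x u)) ∨
      n = l - 2)

theorem core {l : ℕ} {u v : V} (hc : NoCyc G (l + 1)) (hl : 3 ≤ l) (huv : G.Adj u v)
    (L : V → Finset ℕ) (h1 : ∀ x, ¬ G.Adj x v → 1 ∈ L x) (h0 : ∀ x, ¬ G.Adj x u → 0 ∈ L x)
    (hs : ∀ x, ¬ (G.Adj x u ∧ G.Adj x v) → l - 2 ≤ (L x).card) (hL : ∀ x, l - 3 ≤ (L x).card)
    (X : Finset V) : u ∉ X → v ∉ X → (∀ x ∈ X, G.Adj x u ∨ G.Adj x v) → ¬ Obs G u v L l X →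
      ∃ c : V → ℕ, (∀ x ∈ X, c x ∈ L x) ∧ ∀ x ∈ X, ∀ y ∈ X, G.Adj x y → c x ≠ c y := by
  induction X using Finset.strongInduction with
  | H X ih =>
  intro hu hv hX hno
  have ih' : ∀ Y, Y ⊂ X → ∃ c : V → ℕ, (∀ x ∈ Y, c x ∈ L x) ∧
      ∀ x ∈ Y, ∀ y ∈ Y, G.Adj x y → c x ≠ c y := fun Y hY =>
    ih Y hY (fun h => hu (hY.1 h)) (fun h => hv (hY.1 h)) (fun x hx => hX x (hY.1 hx))
      fun ⟨n, Q, hQ, h⟩ => hno ⟨n, Q, hQ.trans hY.1, h⟩
  by_cases hdeg : ∃ x ∈ X, dg G X x < (L x).card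
  · obtain ⟨x, hx, hlt⟩ := hdeg
    obtain ⟨c, hc1, hc2⟩ := ih' _ (Finset.erase_ssubset hx)
    obtain ⟨a, ha1, ha2⟩ := Finset.exists_mem_notMem_of_card_lt_card
      (lt_of_le_of_lt (Finset.card_image_le (s := X.filter (G.Adj x)) (f := c)) hlt)
    have ha3 : ∀ y ∈ X, G.Adj x y → c y ≠ a := fun y hy h e =>
      ha2 (Finset.mem_image.2 ⟨y, Finset.mem_filter.2 ⟨hy, h⟩, e⟩)
    refine ⟨fun y => if y = x then a else c y, fun y hy => ?_, fun y hy z hz hyz => ?_⟩
    · simp only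
      split_ifs with e
      · rw [e]; exact ha1
      · exact hc1 y (Finset.mem_erase.2 ⟨e, hy⟩)
    · simp only
      split_ifs with e1 e2 e2
      · exact (hyz.ne (e1.trans e2.symm)).elim
      · exact (ha3 z hz (e1 ▸ hyz)).symm
      · exact ha3 y hy (e2 ▸ hyz.symm)
      · exact hc2 y (Finset.mem_erase.2 ⟨e1, hy⟩) z (Finset.mem_erase.2 ⟨e2, hz⟩) hyz
  push Not at hdeg
  have hd : ∀ x ∈ X, ¬ (G.Adj x u ∧ G.Adj x v) → l - 2 ≤ dg G X x := fun x hx h =>
    (hs x h).trans (hdeg x hx)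
  by_cases hbig : ∃ f, Pth G (X : Set V) l f
  · let good : V → Prop := fun x => ∃ g, Pth G (X : Set V) l g ∧ g 0 = x
    have hcl : ∀ x y, good x → y ∈ X → G.Adj x y → good y ∧ Opp G u v x y := by
      rintro x y ⟨g, hg, rfl⟩ hy ha
      exact big_closed hc hl huv hu hv hX hd hg hy ha
    obtain ⟨f, hf⟩ := hbig
    obtain ⟨c, hc1, hc2⟩ := ih' (X.filter fun x => ¬ good x)
      (Finset.filter_ssubset.2 ⟨f 0, hf.mem 0 (by omega), fun h => h ⟨f, hf, rfl⟩⟩)
    refine ⟨fun x => if good x then (if G.Adj x u then 1 else 0) else c x, fun x hx => ?_,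
      fun x hx y hy hxy => ?_⟩
    · simp only
      split_ifs with e1 e2
      · obtain ⟨g, hg, rfl⟩ := e1
        exact h1 _ fun h => (big_types hc hl huv hu hv hX hg).1.1 ⟨e2, h⟩
      · exact h0 x e2
      · exact hc1 x (Finset.mem_filter.2 ⟨hx, e1⟩)
    · by_cases e1 : good x
      · obtain ⟨e2, e3⟩ := hcl x y e1 hy hxy
        simp only [if_pos e1, if_pos e2]
        have := e3.2.1
        by_cases e4 : G.Adj x u
        · simp [e4, this.1 e4]
        · have e5 : G.Adj y u := by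
            by_contra e5
            exact e4 (this.2 e5)
          simp [e4, e5]
      · have e2 : ¬ good y := fun e2 => e1 (hcl y x e2 hx hxy.symm).1
        simp only [if_neg e1, if_neg e2]
        exact hc2 x (Finset.mem_filter.2 ⟨hx, e1⟩) y (Finset.mem_filter.2 ⟨hy, e2⟩) hxy
  have hfin : ∀ n f, (¬ ∃ g, Pth G (X : Set V) (n + 1) g) →
      (∀ g, Pth G (X : Set V) n g → n - 1 ≤ dg G X (g 0)) → Pth G (X : Set V) n f →
      (Finset.range n).image f ⊆ X ∧ G.IsNClique n ((Finset.range n).image f) ∧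
        ∀ x ∈ (Finset.range n).image f, (L x).card ≤ n - 1 := by
    intro n f a1 a2 a3
    refine ⟨fun x hx => ?_, longest_clique a1 a2 a3, fun x hx => ?_⟩
    · obtain ⟨i, hi, rfl⟩ := Finset.mem_image.1 hx
      exact a3.mem i (Finset.mem_range.1 hi)
    · obtain ⟨i, hi, rfl⟩ := Finset.mem_image.1 hx
      obtain ⟨g, hg, e, -⟩ := longest_start a1 a2 a3 (Finset.mem_range.1 hi)
      rw [← e]
      exact (hdeg _ (hg.mem 0 (by have := Finset.mem_range.1 hi; omega))).trans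
        (longest_deg a1 hg)
  by_cases hmid : ∃ f, Pth G (X : Set V) (l - 1) f
  · exfalso
    obtain ⟨f, hf⟩ := hmid
    have a1 : ¬ ∃ g, Pth G (X : Set V) (l - 1 + 1) g := by rwa [show l - 1 + 1 = l by omega]
    have a2 : ∀ g, Pth G (X : Set V) (l - 1) g → l - 1 - 1 ≤ dg G X (g 0) := by
      intro g hg
      have b1 := ends_same hc hl huv hu hv hg
      have b2 := hX _ (hg.mem (l - 2) (by omega))
      exact hd _ (hg.mem 0 (by omega)) (by tauto)
    obtain ⟨r1, r2, r3⟩ := hfin _ f a1 a2 hf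
    have b1 := ends_same hc hl huv hu hv hf
    have b2 := hX _ (hf.mem (l - 2) (by omega))
    have b3 := hX _ (hf.mem 0 (by omega))
    have key : ∀ i, i < l - 1 → ¬ (G.Adj (f i) u ∧ G.Adj (f (l - 2)) v) ∧
        ¬ (G.Adj (f i) v ∧ G.Adj (f (l - 2)) u) := by
      intro i hi
      by_cases c : i + 1 < l - 1
      · obtain ⟨g, hg, e, -, e'⟩ := longest_start a1 a2 hf hi
        have := ends_same hc hl huv hu hv hg
        rwa [e, show g (l - 2) = f (l - 2) from e' c] at this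
      · rw [show i = l - 2 by omega]
        tauto
    refine hno ⟨l - 1, _, r1, r2, r3, Or.inl ⟨rfl, ?_⟩⟩
    refine b2.imp (fun h x hx => ?_) fun h x hx => ?_
    all_goals
      have b4 := hX x (r1 hx)
      obtain ⟨i, hi, rfl⟩ := Finset.mem_image.1 hx
      have := key i (Finset.mem_range.1 hi)
      tauto
  rcases X.eq_empty_or_nonempty with rfl | ⟨x0, hx0⟩
  · exact ⟨fun _ => 0, by simp, by simp⟩
  exfalso
  have hp : ∀ m, m + 1 ≤ l - 2 → ∃ f, Pth G (X : Set V) (m + 1) f := by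
    intro m
    induction m with
    | zero =>
      exact fun _ => ⟨fun _ => x0, fun _ _ => hx0, fun i j hi hj _ => by omega,
        fun i hi => by omega⟩
    | succ m ihm =>
      intro hm
      obtain ⟨f, hf⟩ := ihm (by omega)
      by_contra hcon
      have b1 := longest_deg hcon hf
      have b2 := (hL _).trans (hdeg _ (hf.mem 0 (by omega)))
      omega
  obtain ⟨f, hf⟩ := hp (l - 3) (by omega)
  rw [show l - 3 + 1 = l - 2 by omega] at hf
  obtain ⟨r1, r2, r3⟩ := hfin (l - 2) f (by rwa [show l - 2 + 1 = l - 1 by omega])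
    (fun g hg => (hL _).trans (hdeg _ (hg.mem 0 (by omega)))) hf
  exact hno ⟨l - 2, _, r1, r2, r3, Or.inr rfl⟩

end Pool.Agent.Work.MP_ae9baf_co.Cyc
end

-- merged part: Pool.Agent.Work.MP_ae9baf_co.Cyc.Ball
section
/-!
Colourings of balls around edges.
-/

namespace Pool.Agent.Work.MP_ae9baf_co.Cyc

open Classical

variable {V : Type*} {G : SimpleGraph V}

/-- `S` is properly coloured with colours below `n`. -/
def Col (G : SimpleGraph V) (S : Set V) (n : ℕ) : Prop :=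
  ∃ c : V → ℕ, (∀ x ∈ S, c x < n) ∧ ∀ x ∈ S, ∀ y ∈ S, G.Adj x y → c x ≠ c y

theorem Col.sub {S T : Set V} {n : ℕ} (h : Col G T n) (hST : S ⊆ T) : Col G S n :=
  let ⟨c, h1, h2⟩ := h
  ⟨c, fun x hx => h1 x (hST hx), fun x hx y hy => h2 x (hST hx) y (hST hy)⟩

theorem Col.colorable {S : Set V} {n : ℕ} (h : Col G S n) : (G.induce S).Colorable n :=
  let ⟨c, h1, h2⟩ := h
  ⟨SimpleGraph.Coloring.mk (fun x => ⟨c x.1, h1 x.1 x.2⟩)
    fun {x y} hxy e => h2 x.1 x.2 y.1 y.2 hxy (congrArg Fin.val e)⟩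

theorem col_of_colorable {S : Set V} {n : ℕ} (h : (G.induce S).Colorable n) : Col G S n := by
  obtain ⟨c⟩ := h
  refine ⟨fun x => if h : x ∈ S then (c ⟨x, h⟩).val else 0, fun x hx => ?_,
    fun x hx y hy hxy => ?_⟩
  · simp only [dif_pos hx]
    exact (c ⟨x, hx⟩).2
  · simp only [dif_pos hx, dif_pos hy]
    exact fun e => c.valid (show (G.induce S).Adj ⟨x, hx⟩ ⟨y, hy⟩ from hxy) (Fin.ext e)

theorem Col.union {S T : Set V} {n m : ℕ} (h : Col G S n) (h' : Col G T m) :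
    Col G (S ∪ T) (n + m) := by
  obtain ⟨c, h1, h2⟩ := h
  obtain ⟨d, h3, h4⟩ := h'
  refine ⟨fun x => if x ∈ S then c x else n + d x, fun x hx => ?_, fun x hx y hy hxy => ?_⟩
  · simp only
    split_ifs with e
    · have := h1 x e
      omega
    · have := h3 x (hx.resolve_left e)
      omega
  · simp only
    split_ifs with e1 e2 e2
    · exact h2 x e1 y e2 hxy
    · have := h1 x e1
      omega
    · have := h1 y e2
      omega
    · have := h4 x (hx.resolve_left e1) y (hy.resolve_left e2) hxy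
      omega

/-- The colours below `p`, without `0` if `P` holds and without `1` if `R` holds. -/
noncomputable def Lst (p : ℕ) (P R : Prop) : Finset ℕ :=
  (Finset.range p).filter fun c => ¬ (c = 0 ∧ P) ∧ ¬ (c = 1 ∧ R)

theorem mem_lst {p c : ℕ} {P R : Prop} :
    c ∈ Lst p P R ↔ c < p ∧ ¬ (c = 0 ∧ P) ∧ ¬ (c = 1 ∧ R) := by
  simp only [Lst, Finset.mem_filter, Finset.mem_range]

theorem lst_card (p : ℕ) (P R : Prop) : p ≤ (Lst p P R).card + 2 ∧
    (¬ (P ∧ R) → p ≤ (Lst p P R).card + 1) ∧ (¬ P → ¬ R → p ≤ (Lst p P R).card) := by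
  have key : ∀ T : Finset ℕ, (P → 0 ∈ T) → (R → 1 ∈ T) → p ≤ (Lst p P R).card + T.card := by
    intro T h0 h1
    have : Finset.range p ⊆ Lst p P R ∪ T := by
      intro c hc
      by_cases e : c ∈ T
      · exact Finset.mem_union_right _ e
      · exact Finset.mem_union_left _ (Finset.mem_filter.2
          ⟨hc, fun h => e (h.1 ▸ h0 h.2), fun h => e (h.1 ▸ h1 h.2)⟩)
    have h2 := Finset.card_le_card this
    rw [Finset.card_range] at h2
    exact h2.trans (Finset.card_union_le _ _)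
  refine ⟨key {0, 1} (by simp) (by simp), fun h => ?_,
    fun h1 h2 => key ∅ (fun h => (h1 h).elim) fun h => (h2 h).elim⟩
  by_cases e : P
  · exact key {0} (by simp) fun h2 => (h ⟨e, h2⟩).elim
  · exact key {1} (fun h2 => (e h2).elim) (by simp)

variable [Fintype V] {l : ℕ} {u v : V}

theorem ball_col (hc : NoCyc G (l + 1)) (hl : 3 ≤ l) (huv : G.Adj u v) {p : ℕ} (hp : l - 1 ≤ p)
    (W : Set V) (hW : ∀ x ∈ W, G.Adj x u ∨ G.Adj x v)
    (hno : ¬ Obs G u v (fun x => Lst p (u ∈ W ∧ G.Adj x u) (v ∈ W ∧ G.Adj x v)) l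
      (Finset.univ.filter fun x => x ∈ W ∧ x ≠ u ∧ x ≠ v)) : Col G W p := by
  obtain ⟨c, h1, h2⟩ := core hc hl huv
    (fun x => Lst p (u ∈ W ∧ G.Adj x u) (v ∈ W ∧ G.Adj x v))
    (fun x hx => mem_lst.2 ⟨by omega, by simp, by simp [hx]⟩)
    (fun x hx => mem_lst.2 ⟨by omega, by simp [hx], by simp⟩)
    (fun x hx => by
      have := (lst_card p (u ∈ W ∧ G.Adj x u) (v ∈ W ∧ G.Adj x v)).2.1
        fun h => hx ⟨h.1.2, h.2.2⟩
      omega)
    (fun x => by
      have := (lst_card p (u ∈ W ∧ G.Adj x u) (v ∈ W ∧ G.Adj x v)).1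
      omega)
    _ (by simp) (by simp) (fun x hx => hW x (Finset.mem_filter.1 hx).2.1) hno
  have h3 : ∀ x ∈ W, x ≠ u → x ≠ v → c x < p ∧ ¬ (c x = 0 ∧ u ∈ W ∧ G.Adj x u) ∧
      ¬ (c x = 1 ∧ v ∈ W ∧ G.Adj x v) := fun x hx e1 e2 =>
    mem_lst.1 (h1 x (Finset.mem_filter.2 ⟨Finset.mem_univ _, hx, e1, e2⟩))
  refine ⟨fun x => if x = u then 0 else if x = v then 1 else c x, fun x hx => ?_,
    fun x hx y hy hxy => ?_⟩
  · simp only
    split_ifs with e1 e2
    · omega
    · omega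
    · exact (h3 x hx e1 e2).1
  · simp only
    split_ifs with e1 e2 e3 e4 e5 e6 e7 e8
    · exact (hxy.ne (e1.trans e2.symm)).elim
    · omega
    · exact fun e => (h3 y hy e2 e3).2.1 ⟨e.symm, e1 ▸ hx, e1 ▸ hxy.symm⟩
    · omega
    · exact (hxy.ne (e4.trans e6.symm)).elim
    · exact fun e => (h3 y hy e5 e6).2.2 ⟨e.symm, e4 ▸ hx, e4 ▸ hxy.symm⟩
    · exact fun e => (h3 x hx e1 e4).2.1 ⟨e, e7 ▸ hy, e7 ▸ hxy⟩
    · exact fun e => (h3 x hx e1 e4).2.2 ⟨e, e8 ▸ hy, e8 ▸ hxy⟩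
    · exact h2 x (Finset.mem_filter.2 ⟨Finset.mem_univ _, hx, e1, e4⟩) y
        (Finset.mem_filter.2 ⟨Finset.mem_univ _, hy, e7, e8⟩) hxy

/-- A subset of the ball around an edge without `K_l` needs only `l - 1` colours. -/
theorem lemK (hc : NoCyc G (l + 1)) (hl : 3 ≤ l) (huv : G.Adj u v) (W : Set V)
    (hW : ∀ x ∈ W, G.Adj x u ∨ G.Adj x v)
    (hK : ∀ Q : Finset V, (∀ x ∈ Q, x ∈ W) → ¬ G.IsNClique l Q) : Col G W (l - 1) := by
  refine ball_col hc hl huv le_rfl W hW ?_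
  rintro ⟨n, Q, hQ1, hQ2, hQ3, hQ4⟩
  have hQW : ∀ x ∈ Q, x ∈ W := fun x hx => (Finset.mem_filter.1 (hQ1 hx)).2.1
  obtain ⟨x0, hx0⟩ : Q.Nonempty := Finset.card_pos.1 (by rw [hQ2.card_eq]; omega)
  have hcard := fun x => lst_card (l - 1) (u ∈ W ∧ G.Adj x u) (v ∈ W ∧ G.Adj x v)
  have h0 := hQ3 x0 hx0
  simp only at h0 hQ3
  rcases hQ4 with ⟨rfl, h | h⟩ | rfl
  · have hu : u ∈ W := by
      by_contra e
      have := (hcard x0).2.2 (fun h' => e h'.1) fun h' => (h x0 hx0).2 h'.2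
      omega
    refine hK (insert u Q) (fun x hx => ?_) ?_
    · rcases Finset.mem_insert.1 hx with rfl | hx
      · exact hu
      · exact hQW x hx
    · have := hQ2.insert (a := u) fun b hb => (h b hb).1.symm
      rwa [show l - 1 + 1 = l by omega] at this
  · have hv : v ∈ W := by
      by_contra e
      have := (hcard x0).2.2 (fun h' => (h x0 hx0).2 h'.2) fun h' => e h'.1
      omega
    refine hK (insert v Q) (fun x hx => ?_) ?_
    · rcases Finset.mem_insert.1 hx with rfl | hx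
      · exact hv
      · exact hQW x hx
    · have := hQ2.insert (a := v) fun b hb => (h b hb).1.symm
      rwa [show l - 1 + 1 = l by omega] at this
  · have h : ∀ x ∈ Q, (u ∈ W ∧ G.Adj x u) ∧ v ∈ W ∧ G.Adj x v := by
      intro x hx
      by_contra e
      have := (hcard x).2.1 e
      have := hQ3 x hx
      omega
    refine hK (insert u (insert v Q)) (fun x hx => ?_) ?_
    · rcases Finset.mem_insert.1 hx with rfl | hx
      · exact (h x0 hx0).1.1
      rcases Finset.mem_insert.1 hx with rfl | hx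
      · exact (h x0 hx0).2.1
      · exact hQW x hx
    · have := (hQ2.insert (a := v) fun b hb => (h b hb).2.2.symm).insert (a := u) fun b hb => by
        rcases Finset.mem_insert.1 hb with rfl | hb
        · exact huv
        · exact (h b hb).1.2.symm
      rwa [show l - 2 + 1 + 1 = l by omega] at this

theorem lemK2 (hc : NoCyc G (l + 1)) (hl : 3 ≤ l) (huv : G.Adj u v) :
    Col G {x | G.Adj x u ∨ G.Adj x v} l := by
  refine ball_col hc hl huv (by omega) _ (fun x hx => hx) ?_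
  rintro ⟨n, Q, -, hQ2, hQ3, hQ4⟩
  obtain ⟨x0, hx0⟩ : Q.Nonempty := Finset.card_pos.1 (by rw [hQ2.card_eq]; omega)
  have hcard := lst_card l (u ∈ {x | G.Adj x u ∨ G.Adj x v} ∧ G.Adj x0 u)
    (v ∈ {x | G.Adj x u ∨ G.Adj x v} ∧ G.Adj x0 v)
  have h0 := hQ3 x0 hx0
  simp only at h0
  rcases hQ4 with ⟨rfl, h | h⟩ | rfl
  · have := hcard.2.1 fun h' => (h x0 hx0).2 h'.2.2
    omega
  · have := hcard.2.1 fun h' => (h x0 hx0).2 h'.1.2
    omega
  · have := hcard.1
    omega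

omit [Fintype V] in
theorem two_mem {Q : Finset V} (hQ : G.IsNClique l Q) (hl : 3 ≤ l) (P : V → Prop)
    (hP : ∀ x y, G.Adj x y → P x → ¬ P y) :
    ∃ q ∈ Q, ∃ q' ∈ Q, q ≠ q' ∧ ¬ P q ∧ ¬ P q' := by
  have h1 : (Q.filter P).card ≤ 1 := by
    refine Finset.card_le_one.2 fun a ha b hb => ?_
    by_contra e
    exact hP a b (hQ.isClique (Finset.mem_filter.1 ha).1 (Finset.mem_filter.1 hb).1 e)
      (Finset.mem_filter.1 ha).2 (Finset.mem_filter.1 hb).2
  have h2 := Finset.card_filter_add_card_filter_not (s := Q) P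
  rw [hQ.card_eq] at h2
  obtain ⟨a, ha, b, hb, e⟩ := Finset.one_lt_card.1
    (show 1 < (Q.filter fun x => ¬ P x).card by omega)
  exact ⟨a, (Finset.mem_filter.1 ha).1, b, (Finset.mem_filter.1 hb).1, e,
    (Finset.mem_filter.1 ha).2, (Finset.mem_filter.1 hb).2⟩

theorem lemK1 (hc : NoCyc G (l + 1)) (hl : 3 ≤ l) (huv : G.Adj u v) :
    Col G {x | (G.Adj x u ∨ G.Adj x v) ∧ x ≠ u ∧ x ≠ v} (l - 1) := by
  refine lemK hc hl huv _ (fun x hx => hx.1) fun Q hQ1 hQ2 => ?_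
  obtain ⟨q, hq, q', hq', e, -⟩ := two_mem hQ2 hl (fun _ => False) fun _ _ _ h => h.elim
  rcases f3 hc hl hQ2 huv hq hq' e (hQ1 q hq).1 (hQ1 q' hq').1 with h | h
  · exact (hQ1 u h).2.1 rfl
  · exact (hQ1 v h).2.2 rfl

theorem lemK3 (hc : NoCyc G (l + 1)) (hl : 3 ≤ l) {w : V} (hne : w ≠ v) :
    Col G (insert w (G.neighborSet v)) (l - 1) := by
  have hK : ∀ Q : Finset V, (∀ x ∈ Q, x ∈ insert w (G.neighborSet v)) → ¬ G.IsNClique l Q := by
    intro Q hQ1 hQ2
    obtain ⟨q, hq, q', hq', e, e1, e2⟩ := two_mem hQ2 hl (fun x => x = w)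
      fun x y h a b => h.ne (a.trans b.symm)
    refine f1 hc hl hQ2 (x := v) (fun h => ?_) hq hq' e ((hQ1 q hq).resolve_left e1).symm
      ((hQ1 q' hq').resolve_left e2).symm
    rcases hQ1 v h with h | h
    · exact hne h.symm
    · exact G.irrefl h
  by_cases h : ∃ z, G.Adj v z ∧ G.Adj w z
  · obtain ⟨z, h1, h2⟩ := h
    refine lemK hc hl h1 _ (fun x hx => ?_) hK
    rcases hx with rfl | hx
    · exact Or.inr h2
    · exact Or.inl hx.symm
  push Not at h
  have h3 : Col G (G.neighborSet v) (l - 1) := by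
    by_cases h' : ∃ z, G.Adj v z
    · obtain ⟨z, h1⟩ := h'
      exact lemK hc hl h1 _ (fun x hx => Or.inl hx.symm)
        fun Q hQ => hK Q fun x hx => Or.inr (hQ x hx)
    · exact ⟨fun _ => 0, fun _ _ => show 0 < l - 1 by omega, fun x hx => (h' ⟨x, hx⟩).elim⟩
  obtain ⟨c, h1, h2⟩ := h3
  refine ⟨fun x => if x ∈ G.neighborSet v then c x else 0, fun x hx => ?_,
    fun x hx y hy hxy => ?_⟩
  · simp only
    split_ifs with e
    · exact h1 x e
    · omega
  · by_cases e1 : x ∈ G.neighborSet v <;> by_cases e2 : y ∈ G.neighborSet v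
    · simp only [if_pos e1, if_pos e2]
      exact h2 x e1 y e2 hxy
    · exact (h x e1 ((hy.resolve_right e2) ▸ hxy.symm)).elim
    · exact (h y e2 ((hx.resolve_right e1) ▸ hxy)).elim
    · exact (hxy.ne ((hx.resolve_right e1).trans (hy.resolve_right e2).symm)).elim

/-- The vertices dominated by the ends of the edges in `M`. -/
def Dom (G : SimpleGraph V) (M : Finset (V × V)) : Set V :=
  {x | ∃ e ∈ M, G.Adj x e.1 ∨ G.Adj x e.2}

omit [Fintype V] in
theorem dom_col_edge {p : ℕ} (hp : ∀ u v, G.Adj u v → Col G {x | G.Adj x u ∨ G.Adj x v} p)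
    (M : Finset (V × V)) : (∀ e ∈ M, G.Adj e.1 e.2) → Col G (Dom G M) (M.card * p) := by
  induction M using Finset.induction_on with
  | empty => exact fun _ => ⟨fun _ => 0, by simp [Dom], by simp [Dom]⟩
  | insert e M he ih =>
    intro h
    have := (ih fun e' he' => h e' (Finset.mem_insert_of_mem he')).union
      (hp _ _ (h e (Finset.mem_insert_self _ _)))
    rw [Finset.card_insert_of_notMem he, Nat.succ_mul]
    refine this.sub ?_
    rintro x ⟨e', he', hx⟩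
    rcases Finset.mem_insert.1 he' with rfl | he'
    · exact Or.inr hx
    · exact Or.inl ⟨e', he', hx⟩

theorem dom_col (hc : NoCyc G (l + 1)) (hl : 3 ≤ l) (M : Finset (V × V)) (hM : M.Nonempty) :
    (∀ e ∈ M, G.Adj e.1 e.2) → Col G (Dom G M) (M.card * (l - 1) + 1) := by
  induction hM using Finset.Nonempty.cons_induction with
  | singleton e =>
    intro h
    rw [Finset.card_singleton, show 1 * (l - 1) + 1 = l by omega]
    refine (lemK2 hc hl (h e (Finset.mem_singleton_self _))).sub ?_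
    rintro x ⟨e', he', hx⟩
    rwa [Finset.mem_singleton.1 he'] at hx
  | cons e M he hM ih =>
    intro h
    obtain ⟨c, h1, h2⟩ := ih fun e' he' => h e' (Finset.mem_cons_of_mem he')
    have huv := h e (Finset.mem_cons_self _ _)
    obtain ⟨d, h3, h4⟩ := lemK1 hc hl huv
    rw [Finset.card_cons, Nat.succ_mul]
    have h5 : 2 ≤ M.card * (l - 1) := by
      have := Nat.mul_le_mul (Finset.card_pos.2 hM) (show 2 ≤ l - 1 by omega)
      omega
    generalize M.card * (l - 1) = n at h1 h5 ⊢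
    have h6 : ∀ x ∈ Dom G (Finset.cons e M he), ¬ (G.Adj x e.1 ∨ G.Adj x e.2) → x ∈ Dom G M := by
      rintro x ⟨e', he', hx⟩ hn
      rcases Finset.mem_cons.1 he' with rfl | he'
      · exact (hn hx).elim
      · exact ⟨e', he', hx⟩
    let col : V → ℕ := fun x => if x = e.1 then 0 else if x = e.2 then 1 else
      if G.Adj x e.1 ∨ G.Adj x e.2 then n + 1 + d x else c x
    have c1 : col e.1 = 0 := by simp [col]
    have c2 : col e.2 = 1 := by simp [col, huv.ne.symm]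
    have c3 : ∀ x, x ≠ e.1 → x ≠ e.2 → (G.Adj x e.1 ∨ G.Adj x e.2) → col x = n + 1 + d x :=
      fun x a b c => by simp only [col, if_neg a, if_neg b, if_pos c]
    have c4 : ∀ x, ¬ (G.Adj x e.1 ∨ G.Adj x e.2) → col x = c x := fun x hx => by
      have a : x ≠ e.1 := fun a => hx (Or.inr (a ▸ huv))
      have b : x ≠ e.2 := fun b => hx (Or.inl (b ▸ huv.symm))
      simp only [col, if_neg a, if_neg b, if_neg hx]
    have key : ∀ x ∈ Dom G (Finset.cons e M he), ∀ y ∈ Dom G (Finset.cons e M he), G.Adj x y →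
        x ≠ e.1 → x ≠ e.2 → (G.Adj x e.1 ∨ G.Adj x e.2) → col x ≠ col y := by
      intro x hx y hy hxy a b t
      rw [c3 x a b t]
      by_cases a' : y = e.1
      · rw [a', c1]; omega
      by_cases b' : y = e.2
      · rw [b', c2]; omega
      by_cases t' : G.Adj y e.1 ∨ G.Adj y e.2
      · rw [c3 y a' b' t']
        have := h4 x ⟨t, a, b⟩ y ⟨t', a', b'⟩ hxy
        omega
      · rw [c4 y t']
        have := h1 y (h6 y hy t')
        omega
    have key2 : ∀ x ∈ Dom G (Finset.cons e M he), ∀ y ∈ Dom G (Finset.cons e M he), G.Adj x y →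
        (x = e.1 ∨ x = e.2) → col x ≠ col y := by
      intro x hx y hy hxy a
      by_cases a' : y = e.1
      · rw [a.resolve_left fun a => hxy.ne (a.trans a'.symm), a', c1, c2]; omega
      by_cases b' : y = e.2
      · rw [a.resolve_right fun a => hxy.ne (a.trans b'.symm), b', c1, c2]; omega
      exact (key y hy x hx hxy.symm a' b'
        (a.imp (fun a : x = e.1 => a ▸ hxy.symm) fun a : x = e.2 => a ▸ hxy.symm)).symm
    refine ⟨col, fun x hx => ?_, fun x hx y hy hxy => ?_⟩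
    · by_cases a : x = e.1
      · rw [a, c1]; omega
      by_cases b : x = e.2
      · rw [b, c2]; omega
      by_cases t : G.Adj x e.1 ∨ G.Adj x e.2
      · rw [c3 x a b t]
        have := h3 x ⟨t, a, b⟩
        omega
      · rw [c4 x t]
        have := h1 x (h6 x hx t)
        omega
    · by_cases a : x = e.1 ∨ x = e.2
      · exact key2 x hx y hy hxy a
      by_cases b : y = e.1 ∨ y = e.2
      · exact (key2 y hy x hx hxy.symm b).symm
      push Not at a b
      by_cases t : G.Adj x e.1 ∨ G.Adj x e.2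
      · exact key x hx y hy hxy a.1 a.2 t
      by_cases t' : G.Adj y e.1 ∨ G.Adj y e.2
      · exact (key y hy x hx hxy.symm b.1 b.2 t').symm
      rw [c4 x t, c4 y t']
      exact h2 x (h6 x hx t) y (h6 y hy t') hxy

end Pool.Agent.Work.MP_ae9baf_co.Cyc
end

-- merged part: Pool.Agent.Work.MP_ae9baf_co.Cyc.Main
section
/-!
Chromatic discrepancy: balls around edges, and graphs without a cycle of length `l + 1`.
-/

namespace Pool.Agent.Work.MP_ae9baf_co.Cyc

open Classical Pool.Agent.Lib.Haxell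

variable {V C : Type*} {G : SimpleGraph V}

theorem colorable_of_col (σ : V → C) (hσ : ∀ x y, G.Adj x y → σ x ≠ σ y) (K : Finset C)
    (hK : ∀ x, σ x ∈ K) (B : Finset C) {n : ℕ} (h : Col G {x | σ x ∈ B} n) :
    G.Colorable ((K \ B).card + n) := by
  obtain ⟨c, h1, h2⟩ := h
  have hcard : ((K \ B).disjSum (Finset.range n)).card = (K \ B).card + n := by simp
  rw [← hcard]
  refine colorable_of_mem (fun x => if σ x ∈ B then Sum.inr (c x) else Sum.inl (σ x)) _
    (fun x => ?_) fun x y hxy => ?_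
  · by_cases hx : σ x ∈ B
    · simpa [hx] using h1 x hx
    · simp [hx, hK x]
  · by_cases hx : σ x ∈ B <;> by_cases hy : σ y ∈ B
    · simpa [hx, hy] using h2 x hx y hy hxy
    · simp [hx, hy]
    · simp [hx, hy]
    · simpa [hx, hy] using hσ x y hxy

variable [Fintype V]

theorem copies_struct (G : SimpleGraph V) (σ : V → C) (q : ℕ) :
    ∃ H : Finset V, (G.induce (H : Set V)).Colorable q ∧ ∃ J B : Finset C,
      J.card ≤ (H.image σ).card ∧ Finset.univ.image σ \ J ⊆ B ∧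
      (Finset.univ.image σ \ B).card + (B ∩ J).card ≤ J.card ∧
      ∃ M : Fin q → Finset (V × V), ∑ c, (M c).card ≤ (B ∩ J).card ∧
        (∀ c, ∀ e ∈ M c, G.Adj e.1 e.2) ∧ (∀ i ∈ B ∩ J, ∃ c, ∃ e ∈ M c, σ e.2 = i) ∧
        ∀ c x, σ x ∈ B → x ∈ Dom G (M c) := by
  obtain ⟨J, hJK, ⟨T, -, hT2, hT3⟩, B, hBK, hJB, Z, hZ1, hZ2, hZ3, hZ4⟩ :=
    edge_deficiency (copies G q) (fun p => σ p.1) (Finset.univ.image σ)
  let H : Finset V := Finset.univ.filter fun x => ∃ c, (x, c) ∈ T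
  refine ⟨H, ?_, J, B, ?_, hJB, ?_,
    fun c => (Z.filter fun e => e.1.2 = c).image fun e => (e.1.1, e.2.1), ?_, ?_, ?_, ?_⟩
  · have hc : ∀ x : (H : Set V), ∃ c, (x.1, c) ∈ T := fun x => by
      have := x.2
      simpa [H] using this
    choose c hc using hc
    exact ⟨SimpleGraph.Coloring.mk c fun {x y} h e => hT2 _ (hc x) _ (hc y) ⟨h, e⟩⟩
  · refine Finset.card_le_card fun i hi => ?_
    obtain ⟨p, hp, hpi⟩ := hT3 i hi
    exact Finset.mem_image.2 ⟨p.1, by simpa [H] using ⟨p.2, hp⟩, hpi⟩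
  · rw [← Finset.card_union_of_disjoint]
    · refine Finset.card_le_card fun i hi => ?_
      rcases Finset.mem_union.1 hi with hi | hi
      · by_contra hc
        obtain ⟨h1, h2⟩ := Finset.mem_sdiff.1 hi
        exact h2 (hJB (Finset.mem_sdiff.2 ⟨h1, hc⟩))
      · exact (Finset.mem_inter.1 hi).2
    · exact Finset.disjoint_left.2 fun i h1 h2 =>
        (Finset.mem_sdiff.1 h1).2 (Finset.mem_inter.1 h2).1
  · have h1 := Finset.card_eq_sum_card_fiberwise (s := Z) (t := Finset.univ)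
      (f := fun e : (V × Fin q) × (V × Fin q) => e.1.2)
      (fun _ _ => Finset.mem_coe.2 (Finset.mem_univ _))
    refine le_trans ?_ hZ1
    rw [h1]
    exact Finset.sum_le_sum fun c _ => Finset.card_image_le
  · intro c e he
    obtain ⟨e', he', rfl⟩ := Finset.mem_image.1 he
    exact (hZ2 e' (Finset.mem_filter.1 he').1).1
  · intro i hi
    obtain ⟨e, he, hei⟩ := hZ3 i hi
    exact ⟨e.1.2, _, Finset.mem_image.2 ⟨e, Finset.mem_filter.2 ⟨he, rfl⟩, rfl⟩, hei⟩
  · intro c x hx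
    obtain ⟨e, he, h⟩ := hZ4 (x, c) hx
    refine ⟨_, Finset.mem_image.2 ⟨e, Finset.mem_filter.2 ⟨he, ?_⟩, rfl⟩,
      h.imp (fun h => h.1) fun h => h.1⟩
    rcases h with h | h
    · exact h.2.symm
    · exact (hZ2 e he).2.trans h.2.symm

/-- The conclusion, for an induced subgraph with a bound on its chromatic number. -/
def Goal (G : SimpleGraph V) (σ : V → C) (s : ℕ) : Prop :=
  ∃ H : Set V, H.Nonempty ∧ (G.chromaticNumber.toNat : ℤ) - s ≤
    ((σ '' H).ncard : ℤ) - ((G.induce H).chromaticNumber.toNat : ℤ)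

omit [Fintype V] in
theorem goal_of {σ : V → C} {s q : ℕ} (H : Finset V) (h1 : (G.induce (H : Set V)).Colorable q)
    (h2 : G.chromaticNumber.toNat + q ≤ (H.image σ).card + s) (h3 : 0 < (H.image σ).card) :
    Goal G σ s := by
  refine ⟨H, Finset.coe_nonempty.2 (Finset.image_nonempty.1 (Finset.card_pos.1 h3)), ?_⟩
  have := toNat_le h1
  rw [ncard_image]
  omega

theorem goal_univ [Nonempty V] {σ : V → C} {s : ℕ}
    (h : 2 * G.chromaticNumber.toNat ≤ (Finset.univ.image σ).card + s) : Goal G σ s := by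
  refine goal_of (q := G.chromaticNumber.toNat) Finset.univ ?_ (by omega)
    (Finset.card_pos.2 (Finset.image_nonempty.2 Finset.univ_nonempty))
  obtain ⟨c⟩ := G.colorable_chromaticNumber_of_fintype
  exact ⟨SimpleGraph.Coloring.mk (fun x => c x.1) fun {x y} h => c.valid h⟩

theorem thmA [Nonempty V] {p : ℕ} (hp0 : 1 ≤ p)
    (hp : ∀ u v, G.Adj u v → Col G {x | G.Adj x u ∨ G.Adj x v} p)
    (σ : V → C) (hσ : ∀ x y, G.Adj x y → σ x ≠ σ y) : Goal G σ p := by
  have hK : ∀ x, σ x ∈ Finset.univ.image σ := fun x =>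
    Finset.mem_image_of_mem σ (Finset.mem_univ x)
  by_cases h0 : G.chromaticNumber.toNat = 0
  · exact goal_univ (by omega)
  obtain ⟨H, hH, J, B, h1, -, h3, M, h4, h5, -, h7⟩ := copies_struct G σ p
  obtain ⟨c, hc⟩ : ∃ c, (M c).card * p ≤ (B ∩ J).card := by
    by_contra hcon
    push Not at hcon
    have h2 : ∑ _c : Fin p, (B ∩ J).card < ∑ c : Fin p, (M c).card * p :=
      Finset.sum_lt_sum_of_nonempty ⟨⟨0, hp0⟩, Finset.mem_univ _⟩ fun c _ => hcon c
    rw [← Finset.sum_mul] at h2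
    simp only [Finset.sum_const, Finset.card_univ, Fintype.card_fin, smul_eq_mul] at h2
    have := Nat.mul_le_mul_right p h4
    rw [mul_comm] at h2
    omega
  have := toNat_le (colorable_of_col σ hσ _ hK B
    ((dom_col_edge hp (M c) (h5 c)).sub fun x hx => h7 c x hx))
  exact goal_of H hH (by omega) (by omega)

theorem b_vertex_in (σ : V → C) (hσ : ∀ x y, G.Adj x y → σ x ≠ σ y) (v0 : V)
    (h2 : ¬ G.Colorable ((Finset.univ.image σ).card - 1)) :
    ∃ v, σ v = σ v0 ∧ ∀ x, σ x ≠ σ v0 → ∃ z, G.Adj v z ∧ σ z = σ x := by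
  by_contra h1
  push Not at h1
  choose! d hd1 hd2 using h1
  have hmem : σ v0 ∈ Finset.univ.image σ := Finset.mem_image_of_mem σ (Finset.mem_univ _)
  rw [← Finset.card_erase_of_mem hmem] at h2
  refine h2 (colorable_of_mem (fun x => if σ x = σ v0 then σ (d x) else σ x) _ (fun x => ?_)
    fun x y hxy => ?_)
  · by_cases hx : σ x = σ v0
    · simp only [hx, if_true, Finset.mem_erase, Finset.mem_image, Finset.mem_univ, true_and]
      exact ⟨hd1 x hx, _, rfl⟩
    · simp [hx]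
  · by_cases hx : σ x = σ v0 <;> by_cases hy : σ y = σ v0
    · exact (hσ x y hxy (hx.trans hy.symm)).elim
    · simp only [hx, hy, if_true, if_false]
      exact fun e => hd2 x hx y hxy e.symm
    · simp only [hx, hy, if_true, if_false]
      exact fun e => hd2 y hy x hxy.symm e
    · simpa only [hx, hy, if_false] using hσ x y hxy

variable {l : ℕ}

theorem not_inj (hc : NoCyc G (l + 1)) (hl : 3 ≤ l)
    (hK : IsEmpty (G ≃g (⊤ : SimpleGraph (Fin l)))) (σ : V → C)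
    (hσ : ∀ x y, G.Adj x y → σ x ≠ σ y) (h2 : ¬ G.Colorable ((Finset.univ.image σ).card - 1))
    (h3 : l ≤ (Finset.univ.image σ).card) : ∃ x y, σ x = σ y ∧ x ≠ y := by
  by_contra hcon
  push Not at hcon
  have hcard : (Finset.univ.image σ).card = Fintype.card V := by
    rw [Finset.card_image_of_injective _ fun x y => hcon x y, Finset.card_univ]
  have hall : ∀ x y, x ≠ y → G.Adj x y := by
    intro x y hxy
    obtain ⟨v, hv1, hv2⟩ := b_vertex_in σ hσ x h2
    obtain ⟨z, hz1, hz2⟩ := hv2 y fun e => hxy (hcon _ _ e).symm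
    rwa [hcon _ _ hv1, hcon _ _ hz2] at hz1
  by_cases e : Fintype.card V = l
  · refine hK.false ⟨Fintype.equivFinOfCardEq e, fun {a b} => ?_⟩
    simp only [SimpleGraph.top_adj, ne_eq, EmbeddingLike.apply_eq_iff_eq]
    exact ⟨hall a b, fun h => h.ne⟩
  · obtain ⟨q, q', hq⟩ := Fintype.exists_pair_of_one_lt_card (α := V) (by omega)
    obtain ⟨f, hf, e0, e1⟩ := clique_path (G := G) (n := l + 1) (l := Fintype.card V)
      (Q := Finset.univ) ⟨fun x _ y _ h => hall x y h, Finset.card_univ⟩ (Finset.mem_univ q)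
      (Finset.mem_univ q') hq (by omega) (by omega)
    refine hc f (hf.sub (Set.subset_univ _)) ?_
    rw [e0, e1]
    exact hall _ _ hq.symm

theorem absorb (hc : NoCyc G (l + 1)) (hl : 3 ≤ l) (σ : V → C)
    (hσ : ∀ x y, G.Adj x y → σ x ≠ σ y) (B : Finset C) (j : C) {x y : V} (hxy : G.Adj x y)
    (hB : ∀ z, σ z ∈ B → G.Adj z x ∨ G.Adj z y) (hno : ¬ Col G {z | σ z ∈ insert j B} l) :
    ∃ Q, G.IsNClique l Q ∧ x ∉ Q ∧ y ∈ Q ∧
      ∃ q ∈ Q, ∃ q' ∈ Q, q ≠ q' ∧ σ q ∈ B ∧ σ q' ∈ B := by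
  let W : Set V := {z | σ z ∈ insert j B ∧ (G.Adj z x ∨ G.Adj z y) ∧ z ≠ x}
  by_cases hK : ∀ Q : Finset V, (∀ z ∈ Q, z ∈ W) → ¬ G.IsNClique l Q
  · exfalso
    have h1 := lemK hc hl hxy W (fun z hz => hz.2.1) hK
    have h2 : Col G {z | σ z ∈ insert j B ∧ z ∉ W} 1 := by
      refine ⟨fun _ => 0, fun _ _ => Nat.one_pos, fun z hz z' hz' h _ => ?_⟩
      have key : ∀ a b, σ a ∈ insert j B ∧ a ∉ W → G.Adj a b → b ≠ x ∧ (a = x ∨ σ a = j) := by
        intro a b ha hab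
        refine ⟨fun e => ha.2 ⟨ha.1, Or.inl (e ▸ hab), fun e' => hab.ne (e'.trans e.symm)⟩, ?_⟩
        by_contra e
        push Not at e
        exact ha.2 ⟨ha.1, hB a ((Finset.mem_insert.1 ha.1).resolve_left e.2), e.1⟩
      obtain ⟨a1, a2⟩ := key z z' hz h
      obtain ⟨a3, a4⟩ := key z' z hz' h.symm
      exact hσ z z' h ((a2.resolve_left a3).trans (a4.resolve_left a1).symm)
    have h3 := h1.union h2
    rw [show l - 1 + 1 = l by omega] at h3
    refine hno (h3.sub fun z hz => ?_)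
    by_cases e : z ∈ W
    · exact Or.inl e
    · exact Or.inr ⟨hz, e⟩
  push Not at hK
  obtain ⟨Q, hQ1, hQ2⟩ := hK
  have hx : x ∉ Q := fun h => (hQ1 x h).2.2 rfl
  obtain ⟨q, hq, q', hq', e, e1, e2⟩ := two_mem hQ2 hl (fun z => σ z = j)
    fun a b h ha hb => hσ a b h (ha.trans hb.symm)
  exact ⟨Q, hQ2, hx, (f3 hc hl hQ2 hxy hq hq' e (hQ1 q hq).2.1 (hQ1 q' hq').2.1).resolve_left hx,
    q, hq, q', hq', e, (Finset.mem_insert.1 (hQ1 q hq).1).resolve_left e1,
    (Finset.mem_insert.1 (hQ1 q' hq').1).resolve_left e2⟩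

omit [Fintype V] in
theorem only_edge (hc : NoCyc G (l + 1)) (hl : 3 ≤ l) {P Q : Finset V} (hP : G.IsNClique l P)
    (hQ : G.IsNClique l Q) {x y a b : V} (hxy : G.Adj x y) (hx : x ∈ P) (hy : y ∈ Q)
    (hx' : x ∉ Q) (hy' : y ∉ P) (hab : G.Adj a b) (h1 : a ∈ P ∨ b ∈ P) (h2 : a ∈ Q ∨ b ∈ Q) :
    b = x ∨ b = y := by
  have hd : ∀ w, w ∈ P → w ∉ Q := by
    intro w hw hw'
    exact f1 hc hl hP hy' hx hw (fun e => hx' (e ▸ hw')) hxy
      (hQ.isClique hw' hy fun e => hy' (e ▸ hw))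
  have key : ∀ a b, G.Adj a b → a ∈ P → b ∈ Q → a = x ∧ b = y := by
    intro a b hab ha hb
    have e : b = y := by
      by_contra e
      by_cases e' : a = x
      · exact f1 hc hl hQ hx' hb hy e (e' ▸ hab.symm) hxy.symm
      · exact f2 hc hl hP (fun h => hd _ h hb) hy' (hQ.isClique hb hy e) ha hx e' hab hxy
    refine ⟨?_, e⟩
    by_contra e'
    exact f1 hc hl hP hy' ha hx e' (e ▸ hab) hxy
  rcases h1 with h1 | h1
  · exact Or.inr (key a b hab h1 (h2.resolve_left (hd a h1))).2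
  · exact Or.inl (key b a hab.symm h1 (h2.resolve_right (hd b h1))).1

theorem thmC [Nonempty V] (hc : NoCyc G (l + 1)) (hl : 3 ≤ l)
    (hK : IsEmpty (G ≃g (⊤ : SimpleGraph (Fin l)))) (σ : V → C)
    (hσ : ∀ x y, G.Adj x y → σ x ≠ σ y) : Goal G σ (l - 1) := by
  have hmem : ∀ x, σ x ∈ Finset.univ.image σ := fun x =>
    Finset.mem_image_of_mem σ (Finset.mem_univ x)
  have hk := toNat_le (colorable_of_mem σ _ hmem hσ)
  by_cases h0 : 2 * G.chromaticNumber.toNat ≤ (Finset.univ.image σ).card + (l - 1)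
  · exact goal_univ h0
  by_cases ht : (Finset.univ.image σ).card = G.chromaticNumber.toNat
  · have h2 : ¬ G.Colorable ((Finset.univ.image σ).card - 1) := fun h => by
      have := toNat_le h
      omega
    obtain ⟨x, y, e1, e2⟩ := not_inj hc hl hK σ hσ h2 (by omega)
    obtain ⟨v, hv1, hv2⟩ := b_vertex_in σ hσ x h2
    obtain ⟨w, hw1, hw2⟩ : ∃ w, w ≠ v ∧ σ w = σ x := by
      by_cases e : x = v
      · exact ⟨y, fun e' => e2 (e.trans e'.symm), e1.symm⟩
      · exact ⟨x, e, rfl⟩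
    let H : Finset V := Finset.univ.filter fun z => z ∈ insert w (G.neighborSet v)
    have hH : (Finset.univ.image σ).card ≤ (H.image σ).card := by
      refine Finset.card_le_card fun i hi => ?_
      obtain ⟨z, -, rfl⟩ := Finset.mem_image.1 hi
      by_cases e : σ z = σ x
      · exact Finset.mem_image.2 ⟨w, Finset.mem_filter.2 ⟨Finset.mem_univ _, Or.inl rfl⟩,
          hw2.trans e.symm⟩
      · obtain ⟨z', hz1, hz2⟩ := hv2 z e
        exact Finset.mem_image.2 ⟨z', Finset.mem_filter.2 ⟨Finset.mem_univ _, Or.inr hz1⟩, hz2⟩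
    exact goal_of (q := l - 1) H ((lemK3 hc hl hw1).sub fun z hz =>
      (Finset.mem_filter.1 hz).2).colorable (by omega) (by omega)
  obtain ⟨H, hH, J, B, h1, h2, h3, M, h4, h5, h6, h7⟩ := copies_struct G σ l
  by_cases hJ : G.chromaticNumber.toNat + 1 ≤ J.card
  · exact goal_of H hH (by omega) (by omega)
  exfalso
  obtain ⟨a, ha1, ha2⟩ := Finset.exists_mem_notMem_of_card_lt_card
    (show J.card < (Finset.univ.image σ).card by omega)
  obtain ⟨x0, -, rfl⟩ := Finset.mem_image.1 ha1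
  have hne : ∀ c, (M c).Nonempty := fun c =>
    let ⟨e, he, _⟩ := h7 c x0 (h2 (Finset.mem_sdiff.2 ⟨ha1, ha2⟩))
    ⟨e, he⟩
  have hb : ∀ c, G.chromaticNumber.toNat ≤
      (Finset.univ.image σ \ B).card + ((M c).card * (l - 1) + 1) := fun c =>
    toNat_le (colorable_of_col σ hσ _ hmem B
      ((dom_col hc hl (M c) (hne c) (h5 c)).sub fun x hx => h7 c x hx))
  have hN : (B ∩ J).card ≤ l := by
    have s1 : ∑ _c : Fin l, (B ∩ J).card ≤ ∑ c : Fin l, ((M c).card * (l - 1) + 1) :=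
      Finset.sum_le_sum fun c _ => by
        have := hb c
        omega
    rw [Finset.sum_add_distrib, ← Finset.sum_mul] at s1
    simp only [Finset.sum_const, Finset.card_univ, Fintype.card_fin, smul_eq_mul, mul_one] at s1
    have s2 := Nat.mul_le_mul_right (l - 1) h4
    obtain ⟨k, rfl⟩ : ∃ k, l = k + 1 := ⟨l - 1, by omega⟩
    rw [Nat.add_sub_cancel] at s1 s2
    rw [Nat.succ_mul, mul_comm k] at s1
    omega
  have hone : ∀ c, (M c).card = 1 ∧ l ≤ (B ∩ J).card := by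
    intro c
    have s1 := Finset.add_sum_erase Finset.univ (fun c => (M c).card) (Finset.mem_univ c)
    have s2 : ∑ _c ∈ Finset.univ.erase c, 1 ≤ ∑ c ∈ Finset.univ.erase c, (M c).card :=
      Finset.sum_le_sum fun c _ => Finset.card_pos.2 (hne c)
    simp only [Finset.sum_const, Finset.card_erase_of_mem (Finset.mem_univ c), Finset.card_univ,
      Fintype.card_fin, smul_eq_mul, mul_one] at s2
    have s3 := Finset.card_pos.2 (hne c)
    omega
  have hdom : ∀ c, ∀ e ∈ M c, ∀ z, σ z ∈ B → G.Adj z e.1 ∨ G.Adj z e.2 := by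
    intro c e he z hz
    obtain ⟨e', he', h⟩ := h7 c z hz
    rwa [Finset.card_le_one.1 (hone c).1.le e' he' e he] at h
  let c0 : Fin l := ⟨0, by omega⟩
  have hb0 := hb c0
  have hl0 := (hone c0).2
  rw [(hone c0).1] at hb0
  obtain ⟨j, hj⟩ : (Finset.univ.image σ \ B).Nonempty := Finset.card_pos.1 (by omega)
  have hno : ¬ Col G {z | σ z ∈ insert j B} l := by
    intro h
    have s1 := toNat_le (colorable_of_col σ hσ _ hmem _ h)
    rw [Finset.sdiff_insert, Finset.card_erase_of_mem hj] at s1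
    have := Finset.card_pos.2 ⟨j, hj⟩
    omega
  obtain ⟨e0, he0⟩ := hne c0
  have hxy := h5 c0 e0 he0
  obtain ⟨Q, q1, q2, q3, q, q4, q', q5, q6, q7, q8⟩ :=
    absorb hc hl σ hσ B j hxy (hdom c0 e0 he0) hno
  obtain ⟨P, p1, p2, p3, p, p4, p', p5, p6, p7, p8⟩ :=
    absorb hc hl σ hσ B j hxy.symm (fun z hz => (hdom c0 e0 he0 z hz).symm) hno
  have hsub : B ∩ J ⊆ {σ e0.1, σ e0.2} := by
    intro i hi
    obtain ⟨c, e, he, rfl⟩ := h6 i hi
    have := only_edge hc hl p1 q1 hxy p3 q3 q2 p2 (h5 c e he)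
      (f3 hc hl p1 (h5 c e he) p4 p5 p6 (hdom c e he _ p7) (hdom c e he _ p8))
      (f3 hc hl q1 (h5 c e he) q4 q5 q6 (hdom c e he _ q7) (hdom c e he _ q8))
    rcases this with h | h <;> simp [h]
  have := (Finset.card_le_card hsub).trans Finset.card_le_two
  omega

end Pool.Agent.Work.MP_ae9baf_co.Cyc
end
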